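import Mathlib

/-!
# A solvable pebbling distribution on the `4 × 6` grid with an interior vertex of value `47/32`

The distribution has eight pebbles on each of two opposite corners and one pebble on each of
four further vertices.  Every vertex is reachable (explicit sequences of moves, checked by the
kernel), and the interior vertex `(1, 2)` has value `47/32 < 3/2`.
-/

namespace Pool.Agent.Results.MP_33b0ad_co.ValueBelow

open SimpleGraph

/-- The `m × n` grid graph. -/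
abbrev grid (m n : ℕ) : SimpleGraph (Fin m × Fin n) := pathGraph m □ pathGraph n

/-- One pebbling move from `P` to `Q`: two pebbles are taken off `u` and one is put on an
adjacent vertex `v`. -/
def Move {V : Type} [DecidableEq V] (G : SimpleGraph V) (P Q : V → ℕ) : Prop :=
  ∃ u v, G.Adj u v ∧ 2 ≤ P u ∧
    Q = fun z => if z = v then P v + 1 else if z = u then P u - 2 else P z

/-- `y` is reachable under `P`. -/
def Reach {V : Type} [DecidableEq V] (G : SimpleGraph V) (P : V → ℕ) (y : V) : Prop :=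
  ∃ Q : V → ℕ, Relation.ReflTransGen (Move G) P Q ∧ 1 ≤ Q y

/-- `P` is solvable: every vertex is reachable. -/
def Solvable {V : Type} [DecidableEq V] (G : SimpleGraph V) (P : V → ℕ) : Prop :=
  ∀ y, Reach G P y

/-- The value of the vertex `x` with respect to `P`. -/
noncomputable def value {V : Type} [Fintype V] (G : SimpleGraph V) (P : V → ℕ) (x : V) : ℚ :=
  ∑ y, (P y : ℚ) / 2 ^ G.dist x y

/-- `x` lies neither in the first or last row nor in the first or last column. -/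
def Interior {m n : ℕ} (x : Fin m × Fin n) : Prop :=
  0 < x.1.val ∧ x.1.val + 1 < m ∧ 0 < x.2.val ∧ x.2.val + 1 < n

/-! ### Checking sequences of moves -/

/-- Boolean adjacency in a grid. -/
def adjB {m n : ℕ} (u v : Fin m × Fin n) : Bool :=
  ((u.1.val + 1 == v.1.val || v.1.val + 1 == u.1.val) && u.2.val == v.2.val) ||
  ((u.2.val + 1 == v.2.val || v.2.val + 1 == u.2.val) && u.1.val == v.1.val)

theorem adj_of_adjB {m n : ℕ} {u v : Fin m × Fin n} (h : adjB u v = true) :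
    (grid m n).Adj u v := by
  rw [boxProd_adj, pathGraph_adj, pathGraph_adj]
  simp only [adjB, Bool.or_eq_true, Bool.and_eq_true, beq_iff_eq] at h
  rcases h with ⟨h1, h2⟩ | ⟨h1, h2⟩
  · exact Or.inl ⟨h1, Fin.ext h2⟩
  · exact Or.inr ⟨h1, Fin.ext h2⟩

/-- Run a list of moves and check that the target ends up with a pebble. -/
def ok {m n : ℕ} (y : Fin m × Fin n) :
    List ((Fin m × Fin n) × (Fin m × Fin n)) → (Fin m × Fin n → ℕ) → Bool
  | [], P => decide (1 ≤ P y)
  | (u, v) :: l, P => adjB u v && decide (2 ≤ P u) &&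
      ok y l (fun z => if z = v then P v + 1 else if z = u then P u - 2 else P z)

theorem reach_of_ok {m n : ℕ} (y : Fin m × Fin n)
    (l : List ((Fin m × Fin n) × (Fin m × Fin n))) (P : Fin m × Fin n → ℕ)
    (h : ok y l P = true) : Reach (grid m n) P y := by
  induction l generalizing P with
  | nil => exact ⟨P, Relation.ReflTransGen.refl, by simpa [ok] using h⟩
  | cons a l ih =>
    obtain ⟨u, v⟩ := a
    simp only [ok, Bool.and_eq_true, decide_eq_true_eq] at h
    obtain ⟨Q, hQ, hy⟩ := ih _ h.2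
    exact ⟨Q, Relation.ReflTransGen.head ⟨u, v, adj_of_adjB h.1.1, h.1.2, rfl⟩ hQ, hy⟩

/-! ### Distances in a grid -/

/-- Absolute difference of natural numbers. -/
def ad (a b : ℕ) : ℕ := (a - b) + (b - a)

/-- The taxicab distance. -/
def taxi {m n : ℕ} (u v : Fin m × Fin n) : ℕ :=
  ad u.1.val v.1.val + ad u.2.val v.2.val

theorem taxi_le_length {m n : ℕ} {u v : Fin m × Fin n} (p : (grid m n).Walk u v) :
    taxi u v ≤ p.length := by
  induction p with
  | nil => simp [taxi, ad]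
  | @cons u w v h p ih =>
    rw [boxProd_adj, pathGraph_adj, pathGraph_adj] at h
    rw [Walk.length_cons]
    unfold taxi ad at *
    rcases h with ⟨h1, h2⟩ | ⟨h1, h2⟩
    · rw [h2]
      omega
    · rw [h2]
      omega

theorem taxi_le_dist {m n : ℕ} (u v : Fin (m + 1) × Fin (n + 1)) :
    taxi u v ≤ (grid (m + 1) (n + 1)).dist u v := by
  obtain ⟨p, hp⟩ :=
    ((pathGraph_connected m).boxProd (pathGraph_connected n)).exists_walk_length_eq_dist u v
  rw [← hp]
  exact taxi_le_length p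

/-! ### The distribution -/

/-- The distribution: eight pebbles on two opposite corners and four single pebbles. -/
def P0 : Fin 4 × Fin 6 → ℕ := fun p =>
  (![![1, 1, 0, 0, 0, 8], ![0, 0, 0, 0, 0, 0], ![0, 0, 0, 0, 0, 0], ![8, 0, 0, 0, 1, 1]] :
    Fin 4 → Fin 6 → ℕ) p.1 p.2

/-- For every vertex a sequence of moves reaching it. -/
def moves : Fin 4 → Fin 6 → List ((Fin 4 × Fin 6) × (Fin 4 × Fin 6)) := ![
  ![
    [],
    [],
    [((0, 5), (0, 4)), ((0, 5), (0, 4)), ((0, 4), (0, 3)), ((0, 5), (0, 4)), ((0, 5), (0, 4)), ((0, 4), (0, 3)), ((0, 3), (0, 2))],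
    [((0, 5), (0, 4)), ((0, 5), (0, 4)), ((0, 4), (0, 3))],
    [((0, 5), (0, 4))],
    []],
  ![
    [((3, 0), (2, 0)), ((3, 0), (2, 0)), ((2, 0), (1, 0))],
    [((3, 0), (2, 0)), ((3, 0), (2, 0)), ((2, 0), (1, 0)), ((3, 0), (2, 0)), ((3, 0), (2, 0)), ((2, 0), (1, 0)), ((1, 0), (1, 1))],
    [((0, 5), (0, 4)), ((0, 5), (0, 4)), ((0, 4), (0, 3)), ((0, 5), (0, 4)), ((0, 5), (0, 4)), ((0, 4), (0, 3)), ((0, 3), (0, 2)), ((3, 0), (2, 0)), ((3, 0), (2, 0)), ((2, 0), (1, 0)), ((3, 0), (2, 0)), ((3, 0), (2, 0)), ((2, 0), (1, 0)), ((1, 0), (0, 0)), ((0, 0), (0, 1)), ((0, 1), (0, 2)), ((0, 2), (1, 2))],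
    [((0, 5), (1, 5)), ((0, 5), (1, 5)), ((0, 5), (1, 5)), ((0, 5), (1, 5)), ((1, 5), (1, 4)), ((1, 5), (1, 4)), ((1, 4), (1, 3))],
    [((0, 5), (1, 5)), ((0, 5), (1, 5)), ((1, 5), (1, 4))],
    [((0, 5), (1, 5))]],
  ![
    [((3, 0), (2, 0))],
    [((3, 0), (2, 0)), ((3, 0), (2, 0)), ((2, 0), (2, 1))],
    [((3, 0), (2, 0)), ((3, 0), (2, 0)), ((2, 0), (2, 1)), ((3, 0), (2, 0)), ((3, 0), (2, 0)), ((2, 0), (2, 1)), ((2, 1), (2, 2))],
    [((0, 5), (1, 5)), ((0, 5), (1, 5)), ((0, 5), (1, 5)), ((0, 5), (1, 5)), ((1, 5), (2, 5)), ((1, 5), (2, 5)), ((2, 5), (3, 5)), ((3, 0), (3, 1)), ((3, 0), (3, 1)), ((3, 0), (3, 1)), ((3, 0), (3, 1)), ((3, 1), (3, 2)), ((3, 1), (3, 2)), ((3, 2), (3, 3)), ((3, 5), (3, 4)), ((3, 4), (3, 3)), ((3, 3), (2, 3))],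
    [((0, 5), (1, 5)), ((0, 5), (1, 5)), ((0, 5), (1, 5)), ((0, 5), (1, 5)), ((1, 5), (2, 5)), ((1, 5), (2, 5)), ((2, 5), (2, 4))],
    [((0, 5), (1, 5)), ((0, 5), (1, 5)), ((1, 5), (2, 5))]],
  ![
    [],
    [((3, 0), (3, 1))],
    [((3, 0), (3, 1)), ((3, 0), (3, 1)), ((3, 1), (3, 2))],
    [((3, 0), (3, 1)), ((3, 0), (3, 1)), ((3, 0), (3, 1)), ((3, 0), (3, 1)), ((3, 1), (3, 2)), ((3, 1), (3, 2)), ((3, 2), (3, 3))],
    [],
    []]]

theorem all_ok : ∀ y : Fin 4 × Fin 6, ok y (moves y.1 y.2) P0 = true := by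
  decide +kernel

theorem solvable : Solvable (grid 4 6) P0 := fun y => reach_of_ok y _ _ (all_ok y)

theorem value_lt : value (grid 4 6) P0 (1, 2) < 3 / 2 := by
  have h : value (grid 4 6) P0 (1, 2) ≤ ∑ y : Fin 4 × Fin 6, (P0 y : ℚ) / 2 ^ taxi (1, 2) y := by
    unfold value
    refine Finset.sum_le_sum fun y _ => ?_
    have h1 : taxi (1, 2) y ≤ (grid 4 6).dist (1, 2) y := taxi_le_dist (m := 3) (n := 5) (1, 2) y
    have h2 : (2 : ℚ) ^ taxi (1, 2) y ≤ 2 ^ (grid 4 6).dist (1, 2) y :=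
      pow_le_pow_right₀ (by norm_num) h1
    exact div_le_div_of_nonneg_left (Nat.cast_nonneg _) (by positivity) h2
  refine lt_of_le_of_lt h ?_
  have h3 : ∑ y : Fin 4 × Fin 6, (P0 y : ℚ) / 2 ^ taxi (1, 2) y = 47 / 32 := by
    decide +kernel
  rw [h3]
  norm_num

/-- **Negative answer to Q1.**  There are `m`, `n`, a solvable pebbling distribution on the
`m × n` grid and an interior vertex whose value is less than `3 / 2`. -/
theorem result : ∃ (m n : ℕ) (P : Fin m × Fin n → ℕ) (X : Fin m × Fin n),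
    Solvable (grid m n) P ∧ Interior X ∧ value (grid m n) P X < 3 / 2 :=
  ⟨4, 6, P0, (1, 2), solvable, by unfold Interior; decide, value_lt⟩

end Pool.Agent.Results.MP_33b0ad_co.ValueBelow
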